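import Pool.Agent.TH610.CSP.Stm
import Pool.Agent.Helper111.EN.Resid

/-! # RES: residual finiteness of `F_n / gam n (c + 1)`, quantitative on the last factor -/

set_option autoImplicit false

namespace Pool.Agent.TH610.CSP

open Pool.Agent.Helper111.EN

/-- every finite-index normal subgroup of a free group of finite rank contains a characteristic
finite-index subgroup -/
theorem char_core (n : ℕ) (K0 : Subgroup (FF n)) [K0.Normal] [K0.FiniteIndex] :
    ∃ K : Subgroup (FF n), K.Characteristic ∧ K.FiniteIndex ∧ K ≤ K0 := by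
  have h1 : Finite (FF n ⧸ K0) := Subgroup.finite_quotient_of_finiteIndex
  have h2 : Finite (FF n →* FF n ⧸ K0) :=
    Finite.of_equiv (Fin n → FF n ⧸ K0) FreeGroup.lift
  refine ⟨⨅ f : FF n →* FF n ⧸ K0, f.ker, ?_, ?_, ?_⟩
  · rw [Subgroup.characteristic_iff_le_comap]
    intro φ x hx
    rw [Subgroup.mem_comap, Subgroup.mem_iInf]
    intro f
    rw [Subgroup.mem_iInf] at hx
    exact hx (f.comp φ.toMonoidHom)
  · exact Subgroup.finiteIndex_iInf (fun f => inferInstance)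
  · intro x hx
    rw [Subgroup.mem_iInf] at hx
    have h3 := hx (QuotientGroup.mk' K0)
    rwa [QuotientGroup.ker_mk'] at h3

/-- the `M`-th powers of elements of a central subgroup -/
def cpow {Q : Type} [Group Q] (Z : Subgroup Q) (hZ : Z ≤ Subgroup.center Q) (M : ℕ) :
    Subgroup Q where
  carrier := {u | ∃ y ∈ Z, y ^ M = u}
  one_mem' := ⟨1, Z.one_mem, one_pow M⟩
  mul_mem' := by
    rintro a b ⟨y, hy, rfl⟩ ⟨z, hz, rfl⟩
    refine ⟨y * z, Z.mul_mem hy hz, ?_⟩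
    have hc : Commute y z := Subgroup.mem_center_iff.mp (hZ hz) y
    exact hc.mul_pow M
  inv_mem' := by
    rintro a ⟨y, hy, rfl⟩
    exact ⟨y⁻¹, Z.inv_mem hy, inv_pow y M⟩

theorem cpow_normal {Q : Type} [Group Q] (Z : Subgroup Q) (hZ : Z ≤ Subgroup.center Q) (M : ℕ) :
    (cpow Z hZ M).Normal := by
  refine ⟨fun a ha g => ?_⟩
  obtain ⟨y, hy, rfl⟩ := ha
  have h1 : y ^ M ∈ Subgroup.center Q := Subgroup.pow_mem _ (hZ hy) M
  have h2 : g * y ^ M = y ^ M * g := Subgroup.mem_center_iff.mp h1 g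
  have h3 : g * y ^ M * g⁻¹ = y ^ M := by rw [h2, mul_assoc, mul_inv_cancel, mul_one]
  rw [h3]
  exact ⟨y, hy, rfl⟩

/-- a finite subgroup of a finitely generated nilpotent group is avoided by a normal subgroup of
finite index -/
theorem avoid {G : Type} [Group G] [Group.IsNilpotent G] [Group.FG G] (Z : Subgroup G)
    [Finite Z] : ∃ N : Subgroup G, N.Normal ∧ N.FiniteIndex ∧ ∀ z ∈ Z, z ∈ N → z = 1 := by
  classical
  have h1 : ∀ z : Z, ∃ N : Subgroup G, N.Normal ∧ N.FiniteIndex ∧ ((z : G) ∈ N → (z : G) = 1) := by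
    intro z
    by_cases hz : (z : G) = 1
    · exact ⟨⊤, inferInstance, inferInstance, fun _ => hz⟩
    · obtain ⟨r, -, -, N, hN, hzN, hfin, -⟩ := resid (K := G) ∅ (fun p hp => absurd hp (by simp)) 2
        Nat.prime_two (by simp) (fun p hp => absurd hp (by simp)) (z : G) hz
      exact ⟨N, hN, Subgroup.finiteIndex_of_finite_quotient, fun h => absurd h hzN⟩
  choose N hN hfin hz using h1
  refine ⟨⨅ z : Z, N z, ?_, ?_, ?_⟩
  · exact Subgroup.normal_iInf_normal hN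
  · exact Subgroup.finiteIndex_iInf hfin
  · intro z hzZ hzN
    exact hz ⟨z, hzZ⟩ ((Subgroup.mem_iInf.mp hzN) ⟨z, hzZ⟩)

theorem t_res : StRes := by
  intro n c M _ hM
  -- the quotient `Q = F / gam n (c + 1)`
  have hnorm : (gam n (c + 1)).Normal := inferInstance
  obtain ⟨q, hq⟩ : ∃ q : FF n →* FF n ⧸ gam n (c + 1), q = QuotientGroup.mk' _ := ⟨_, rfl⟩
  have hqs : Function.Surjective q := hq ▸ QuotientGroup.mk'_surjective _
  have hqk : ∀ x, q x = 1 ↔ x ∈ gam n (c + 1) := by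
    intro x
    rw [hq, ← MonoidHom.mem_ker, QuotientGroup.ker_mk']
  have hnil : Group.IsNilpotent (FF n ⧸ gam n (c + 1)) := by
    rw [Subgroup.nilpotent_iff_lowerCentralSeries]
    refine ⟨c + 1, ?_⟩
    have h1 : (⊤ : Subgroup (FF n ⧸ gam n (c + 1))) = (⊤ : Subgroup (FF n)).map q := by
      rw [← MonoidHom.range_eq_map, MonoidHom.range_eq_top.mpr hqs]
    rw [h1, ← Subgroup.map_lowerCentralSeries, eq_bot_iff]
    rintro y ⟨x, hx, rfl⟩
    exact Subgroup.mem_bot.mpr ((hqk x).mpr hx)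
  have hfg : Group.FG (FF n ⧸ gam n (c + 1)) := QuotientGroup.fg _
  -- the image of `gam n c`
  obtain ⟨Z, hZdef⟩ : ∃ Z : Subgroup (FF n ⧸ gam n (c + 1)), Z = (gam n c).map q := ⟨_, rfl⟩
  have hZc : Z ≤ Subgroup.center (FF n ⧸ gam n (c + 1)) := by
    rw [hZdef]
    rintro z ⟨y, hy, rfl⟩
    rw [Subgroup.mem_center_iff]
    intro g
    obtain ⟨x, rfl⟩ := hqs g
    have h1 : y * x * y⁻¹ * x⁻¹ ∈ gam n (c + 1) :=
      Subgroup.commutator_mem_commutator hy (Subgroup.mem_top x)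
    have h2 := (hqk _).mpr h1
    rw [map_mul, map_mul, map_mul, map_inv, map_inv, mul_inv_eq_one, mul_inv_eq_iff_eq_mul] at h2
    exact h2.symm
  have hRn : (cpow Z hZc M).Normal := cpow_normal Z hZc M
  obtain ⟨p, hp⟩ : ∃ p : (FF n ⧸ gam n (c + 1)) →* (FF n ⧸ gam n (c + 1)) ⧸ cpow Z hZc M,
    p = QuotientGroup.mk' _ := ⟨_, rfl⟩
  have hps : Function.Surjective p := hp ▸ QuotientGroup.mk'_surjective _
  have hpk : ∀ x, p x = 1 ↔ x ∈ cpow Z hZc M := by
    intro x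
    rw [hp, ← MonoidHom.mem_ker, QuotientGroup.ker_mk']
  have hfg2 : Group.FG ((FF n ⧸ gam n (c + 1)) ⧸ cpow Z hZc M) := QuotientGroup.fg _
  have hnil2 : Group.IsNilpotent ((FF n ⧸ gam n (c + 1)) ⧸ cpow Z hZc M) := inferInstance
  obtain ⟨Z', hZ'⟩ : ∃ Z' : Subgroup ((FF n ⧸ gam n (c + 1)) ⧸ cpow Z hZc M), Z' = Z.map p :=
    ⟨_, rfl⟩
  have hfin : Finite Z' := by
    have hNS := NSc.NS_of_nilpotent_fg
      (⊤ : Subgroup ((FF n ⧸ gam n (c + 1)) ⧸ cpow Z hZc M)) (Group.isNilpotent_top.2 hnil2) hfg2.out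
    have h1 : Group.FG Z' := (Group.fg_iff_subgroup_fg _).2 (hNS Z' le_top)
    refine finite_of_fg_nilpotent Z' ?_
    rintro ⟨z, hz⟩
    rw [isOfFinOrder_iff_pow_eq_one]
    refine ⟨M, hM, ?_⟩
    apply Subtype.ext
    show z ^ M = 1
    rw [hZ'] at hz
    obtain ⟨y, hy, rfl⟩ := hz
    rw [← map_pow, hpk]
    exact ⟨y, hy, rfl⟩
  obtain ⟨N, hN, hNf, hNZ⟩ := avoid Z'
  have h5 : (N.comap (p.comp q)).Normal := hN.comap _
  have h6 : (N.comap (p.comp q)).FiniteIndex := by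
    refine ⟨?_⟩
    rw [Subgroup.index_comap_of_surjective N (f := p.comp q) (hps.comp hqs)]
    exact hNf.index_ne_zero
  obtain ⟨K, hK1, hK2, hK3⟩ := char_core n (N.comap (p.comp q))
  refine ⟨K, hK1, hK2, fun x hx hxc => ?_⟩
  have h7 : p (q x) ∈ N := hK3 hx
  have h8 : q x ∈ Z := by rw [hZdef]; exact Subgroup.mem_map_of_mem q hxc
  have h9 : p (q x) ∈ Z' := by rw [hZ']; exact Subgroup.mem_map_of_mem p h8
  have h10 := (hpk _).mp (hNZ _ h9 h7)
  obtain ⟨u, hu, hux⟩ := h10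
  rw [hZdef] at hu
  obtain ⟨y, hy, rfl⟩ := hu
  refine ⟨y, hy, (hqk _).mp ?_⟩
  rw [map_mul, map_inv, map_pow, hux, mul_inv_cancel]

end Pool.Agent.TH610.CSP
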