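import Pool.Agent.TH610.CSP.GStm
import Pool.Agent.TH610.CSP.Res

/-! # GRES: RES for the lower central series of a finite-index normal subgroup -/

set_option autoImplicit false

namespace Pool.Agent.TH610.CSP

open Pool.Agent.Helper111.EN

/-- RES in an arbitrary finitely generated group -/
theorem gres_fg (G : Type) [Group G] [Group.FG G] (c M : ℕ) (hM : 0 < M) :
    ∃ N : Subgroup G, N.Normal ∧ N.FiniteIndex ∧
      ∀ x ∈ N, x ∈ (⊤ : Subgroup G).lowerCentralSeries c →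
        ∃ y ∈ (⊤ : Subgroup G).lowerCentralSeries c,
          x * (y ^ M)⁻¹ ∈ (⊤ : Subgroup G).lowerCentralSeries (c + 1) := by
  obtain ⟨L, hL⟩ : ∃ L : ℕ → Subgroup G, L = (⊤ : Subgroup G).lowerCentralSeries := ⟨_, rfl⟩
  rw [← hL]
  have hnorm : (L (c + 1)).Normal := by rw [hL]; infer_instance
  obtain ⟨q, hq⟩ : ∃ q : G →* G ⧸ L (c + 1), q = QuotientGroup.mk' _ := ⟨_, rfl⟩
  have hqs : Function.Surjective q := hq ▸ QuotientGroup.mk'_surjective _
  have hqk : ∀ x, q x = 1 ↔ x ∈ L (c + 1) := by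
    intro x
    rw [hq, ← MonoidHom.mem_ker, QuotientGroup.ker_mk']
  have hnil : Group.IsNilpotent (G ⧸ L (c + 1)) := by
    rw [Subgroup.nilpotent_iff_lowerCentralSeries]
    refine ⟨c + 1, ?_⟩
    have h1 : (⊤ : Subgroup (G ⧸ L (c + 1))) = (⊤ : Subgroup G).map q := by
      rw [← MonoidHom.range_eq_map, MonoidHom.range_eq_top.mpr hqs]
    rw [h1, ← Subgroup.map_lowerCentralSeries, eq_bot_iff]
    rintro y ⟨x, hx, rfl⟩
    refine Subgroup.mem_bot.mpr ((hqk x).mpr ?_)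
    rw [hL]
    exact hx
  have hfg : Group.FG (G ⧸ L (c + 1)) := QuotientGroup.fg _
  obtain ⟨Z, hZdef⟩ : ∃ Z : Subgroup (G ⧸ L (c + 1)), Z = (L c).map q := ⟨_, rfl⟩
  have hZc : Z ≤ Subgroup.center (G ⧸ L (c + 1)) := by
    rw [hZdef]
    rintro z ⟨y, hy, rfl⟩
    rw [Subgroup.mem_center_iff]
    intro g
    obtain ⟨x, rfl⟩ := hqs g
    have h1 : y * x * y⁻¹ * x⁻¹ ∈ L (c + 1) := by
      have hy' : y ∈ (⊤ : Subgroup G).lowerCentralSeries c := by rw [← hL]; exact hy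
      rw [hL]
      exact Subgroup.commutator_mem_commutator hy' (Subgroup.mem_top x)
    have h2 := (hqk _).mpr h1
    rw [map_mul, map_mul, map_mul, map_inv, map_inv, mul_inv_eq_one, mul_inv_eq_iff_eq_mul] at h2
    exact h2.symm
  have hRn : (cpow Z hZc M).Normal := cpow_normal Z hZc M
  obtain ⟨p, hp⟩ : ∃ p : (G ⧸ L (c + 1)) →* (G ⧸ L (c + 1)) ⧸ cpow Z hZc M,
    p = QuotientGroup.mk' _ := ⟨_, rfl⟩
  have hps : Function.Surjective p := hp ▸ QuotientGroup.mk'_surjective _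
  have hpk : ∀ x, p x = 1 ↔ x ∈ cpow Z hZc M := by
    intro x
    rw [hp, ← MonoidHom.mem_ker, QuotientGroup.ker_mk']
  have hfg2 : Group.FG ((G ⧸ L (c + 1)) ⧸ cpow Z hZc M) := QuotientGroup.fg _
  have hnil2 : Group.IsNilpotent ((G ⧸ L (c + 1)) ⧸ cpow Z hZc M) := inferInstance
  obtain ⟨Z', hZ'⟩ : ∃ Z' : Subgroup ((G ⧸ L (c + 1)) ⧸ cpow Z hZc M), Z' = Z.map p :=
    ⟨_, rfl⟩
  have hfin : Finite Z' := by
    have hNS := NSc.NS_of_nilpotent_fg
      (⊤ : Subgroup ((G ⧸ L (c + 1)) ⧸ cpow Z hZc M)) (Group.isNilpotent_top.2 hnil2) hfg2.out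
    have h1 : Group.FG Z' := (Group.fg_iff_subgroup_fg _).2 (hNS Z' le_top)
    refine finite_of_fg_nilpotent Z' ?_
    rintro ⟨z, hz⟩
    rw [isOfFinOrder_iff_pow_eq_one]
    refine ⟨M, hM, ?_⟩
    apply Subtype.ext
    show z ^ M = 1
    rw [hZ'] at hz
    obtain ⟨y, hy, rfl⟩ := hz
    rw [← map_pow, hpk]
    exact ⟨y, hy, rfl⟩
  obtain ⟨N, hN, hNf, hNZ⟩ := avoid Z'
  have h5 : (N.comap (p.comp q)).Normal := hN.comap _
  have h6 : (N.comap (p.comp q)).FiniteIndex := by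
    refine ⟨?_⟩
    rw [Subgroup.index_comap_of_surjective N (f := p.comp q) (hps.comp hqs)]
    exact hNf.index_ne_zero
  refine ⟨N.comap (p.comp q), h5, h6, fun x hx hxc => ?_⟩
  have h7 : p (q x) ∈ N := hx
  have h8 : q x ∈ Z := by rw [hZdef]; exact Subgroup.mem_map_of_mem q hxc
  have h9 : p (q x) ∈ Z' := by rw [hZ']; exact Subgroup.mem_map_of_mem p h8
  have h10 := (hpk _).mp (hNZ _ h9 h7)
  obtain ⟨u, hu, hux⟩ := h10
  rw [hZdef] at hu
  obtain ⟨y, hy, rfl⟩ := hu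
  refine ⟨y, hy, (hqk _).mp ?_⟩
  rw [map_mul, map_inv, map_pow, hux, mul_inv_cancel]

theorem t_gres : StGRes := by
  intro n c M K0 _ hK0f _ hM
  have hfg : Group.FG K0 := by
    have h := hK0f
    infer_instance
  obtain ⟨N, hN, hNf, hNx⟩ := gres_fg K0 c M hM
  have hmap : ∀ k : ℕ, ((⊤ : Subgroup K0).lowerCentralSeries k).map K0.subtype =
      K0.lowerCentralSeries k := by
    intro k
    rw [Subgroup.map_lowerCentralSeries, ← MonoidHom.range_eq_map, Subgroup.range_subtype]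
  have h1 : (N.map K0.subtype).FiniteIndex := by
    refine ⟨?_⟩
    rw [Subgroup.index_map_subtype]
    exact mul_ne_zero hNf.index_ne_zero hK0f.index_ne_zero
  have h2 : (N.map K0.subtype).normalCore.FiniteIndex := inferInstance
  obtain ⟨K, hK1, hK2, hK3⟩ := char_core n (N.map K0.subtype).normalCore
  refine ⟨K, hK1, hK2, fun x hx hxc => ?_⟩
  obtain ⟨x', hx'N, rfl⟩ := Subgroup.normalCore_le _ (hK3 hx)
  rw [← hmap c] at hxc
  obtain ⟨x'', hx''c, hxx⟩ := hxc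
  have h3 : x'' = x' := Subtype.ext hxx
  subst h3
  obtain ⟨y, hy, hxy⟩ := hNx x'' hx'N hx''c
  refine ⟨K0.subtype y, ?_, ?_⟩
  · rw [← hmap c]
    exact Subgroup.mem_map_of_mem _ hy
  · rw [← hmap (c + 1), ← map_pow, ← map_inv, ← map_mul]
    exact Subgroup.mem_map_of_mem _ hxy

end Pool.Agent.TH610.CSP
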