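import Pool.Agent.TH610.CSP.Stm

/-! # The steps for the lower central series of a finite-index normal subgroup: statements -/

set_option autoImplicit false

namespace Pool.Agent.TH610.CSP

/-- on the kernel of the action on `F_n / K0.lowerCentralSeries c`, the subgroup `N` contains a
congruence subgroup (`K0.lowerCentralSeries 0 = K0`, `K0.lowerCentralSeries 1 = [K0, K0]`) -/
def PCg {n : ℕ} (N : Subgroup (MulAut (FF n))) (K0 : Subgroup (FF n)) (c : ℕ) : Prop :=
  ∃ K : Subgroup (FF n), K.Characteristic ∧ K.FiniteIndex ∧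
    ∀ ψ : MulAut (FF n), Triv K ψ → Triv (K0.lowerCentralSeries c) ψ → ψ ∈ N

/-- RES for a finite-index normal subgroup `K0` -/
def StGRes : Prop := ∀ (n c M : ℕ) (K0 : Subgroup (FF n)), K0.Normal → K0.FiniteIndex → 1 ≤ c →
  0 < M → ∃ K : Subgroup (FF n), K.Characteristic ∧ K.FiniteIndex ∧
    ∀ x ∈ K, x ∈ K0.lowerCentralSeries c →
      ∃ y ∈ K0.lowerCentralSeries c, x * (y ^ M)⁻¹ ∈ K0.lowerCentralSeries (c + 1)

/-- STEP for a finite-index normal subgroup `K0` -/
def StGStep : Prop := ∀ (n c : ℕ) (K0 : Subgroup (FF n)), K0.Normal → K0.FiniteIndex → 1 ≤ c →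
  ∀ N : Subgroup (MulAut (FF n)), N.Normal → N.FiniteIndex → PCg N K0 (c + 1) → PCg N K0 c

end Pool.Agent.TH610.CSP
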