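import Pool.Agent.TH610.CSP.Stm
set_option autoImplicit false
set_option linter.all false
open Matrix
namespace Pool.Agent.TH610.CSP
namespace ThreeB
abbrev M3 := Matrix (Fin 3) (Fin 3) ℤ
lemma inj {A B : SLn 3} (h : A.1 = B.1) : A = B := Subtype.ext h

def M12 (t : ℤ) : M3 := !![1,t,0;0,1,0;0,0,1]
def M13 (t : ℤ) : M3 := !![1,0,t;0,1,0;0,0,1]
def M21 (t : ℤ) : M3 := !![1,0,0;t,1,0;0,0,1]
def M23 (t : ℤ) : M3 := !![1,0,0;0,1,t;0,0,1]
def M31 (t : ℤ) : M3 := !![1,0,0;0,1,0;t,0,1]
def M32 (t : ℤ) : M3 := !![1,0,0;0,1,0;0,t,1]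
def Mw : M3 := !![1,0,0;0,0,-1;0,1,0]
def Mio (a b c d : ℤ) : M3 := !![a,b,0;c,d,0;0,0,1]
def Mio3 (a b c d : ℤ) : M3 := !![a,0,b;0,1,0;c,0,d]

def e12 (t : ℤ) : SLn 3 := ⟨M12 t, by simp [M12, Matrix.det_fin_three]⟩
def e13 (t : ℤ) : SLn 3 := ⟨M13 t, by simp [M13, Matrix.det_fin_three]⟩
def e21 (t : ℤ) : SLn 3 := ⟨M21 t, by simp [M21, Matrix.det_fin_three]⟩
def e23 (t : ℤ) : SLn 3 := ⟨M23 t, by simp [M23, Matrix.det_fin_three]⟩
def e31 (t : ℤ) : SLn 3 := ⟨M31 t, by simp [M31, Matrix.det_fin_three]⟩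
def e32 (t : ℤ) : SLn 3 := ⟨M32 t, by simp [M32, Matrix.det_fin_three]⟩
def w : SLn 3 := ⟨Mw, by simp [Mw, Matrix.det_fin_three]⟩

def io (a b c d : ℤ) (h : a * d - b * c = 1) : SLn 3 :=
  ⟨Mio a b c d, by simp [Mio, Matrix.det_fin_three]; linarith⟩

/-- the copy in positions `1, 3` -/
def io3 (a b c d : ℤ) (h : a * d - b * c = 1) : SLn 3 :=
  ⟨Mio3 a b c d, by simp [Mio3, Matrix.det_fin_three]; linarith⟩

lemma e12_add (s t : ℤ) : e12 (s + t) = e12 s * e12 t :=
  inj (show M12 (s + t) = M12 s * M12 t by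
    simp only [M12, M13, M21, M23, M31, M32, Mw, Mio, Mio3]
    ext i j
    fin_cases i <;> fin_cases j <;> simp [Matrix.mul_apply, Fin.sum_univ_three] <;> ring)
lemma e13_add (s t : ℤ) : e13 (s + t) = e13 s * e13 t :=
  inj (show M13 (s + t) = M13 s * M13 t by
    simp only [M12, M13, M21, M23, M31, M32, Mw, Mio, Mio3]
    ext i j
    fin_cases i <;> fin_cases j <;> simp [Matrix.mul_apply, Fin.sum_univ_three] <;> ring)
lemma e21_add (s t : ℤ) : e21 (s + t) = e21 s * e21 t :=
  inj (show M21 (s + t) = M21 s * M21 t by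
    simp only [M12, M13, M21, M23, M31, M32, Mw, Mio, Mio3]
    ext i j
    fin_cases i <;> fin_cases j <;> simp [Matrix.mul_apply, Fin.sum_univ_three] <;> ring)
lemma e23_add (s t : ℤ) : e23 (s + t) = e23 s * e23 t :=
  inj (show M23 (s + t) = M23 s * M23 t by
    simp only [M12, M13, M21, M23, M31, M32, Mw, Mio, Mio3]
    ext i j
    fin_cases i <;> fin_cases j <;> simp [Matrix.mul_apply, Fin.sum_univ_three] <;> ring)
lemma e31_add (s t : ℤ) : e31 (s + t) = e31 s * e31 t :=
  inj (show M31 (s + t) = M31 s * M31 t by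
    simp only [M12, M13, M21, M23, M31, M32, Mw, Mio, Mio3]
    ext i j
    fin_cases i <;> fin_cases j <;> simp [Matrix.mul_apply, Fin.sum_univ_three] <;> ring)
lemma e32_add (s t : ℤ) : e32 (s + t) = e32 s * e32 t :=
  inj (show M32 (s + t) = M32 s * M32 t by
    simp only [M12, M13, M21, M23, M31, M32, Mw, Mio, Mio3]
    ext i j
    fin_cases i <;> fin_cases j <;> simp [Matrix.mul_apply, Fin.sum_univ_three] <;> ring)

lemma c12 (t : ℤ) : e13 t * e32 1 = e12 t * (e32 1 * e13 t) :=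
  inj (show M13 t * M32 1 = M12 t * (M32 1 * M13 t) by
    simp only [M12, M13, M21, M23, M31, M32, Mw, Mio, Mio3]
    ext i j
    fin_cases i <;> fin_cases j <;> simp [Matrix.mul_apply, Fin.sum_univ_three])
lemma c21 (t : ℤ) : e23 t * e31 1 = e21 t * (e31 1 * e23 t) :=
  inj (show M23 t * M31 1 = M21 t * (M31 1 * M23 t) by
    simp only [M12, M13, M21, M23, M31, M32, Mw, Mio, Mio3]
    ext i j
    fin_cases i <;> fin_cases j <;> simp [Matrix.mul_apply, Fin.sum_univ_three])
lemma hw1 : e32 1 * e23 (-1) = e23 1 * w :=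
  inj (show M32 1 * M23 (-1) = M23 1 * Mw by
    simp only [M12, M13, M21, M23, M31, M32, Mw, Mio, Mio3]
    ext i j
    fin_cases i <;> fin_cases j <;> simp [Matrix.mul_apply, Fin.sum_univ_three])

variable {a b c d : ℤ} (h : a * d - b * c = 1)

lemma m13 (t : ℤ) : io a b c d h * e13 t = e13 (a * t) * (e23 (c * t) * io a b c d h) :=
  inj (show Mio a b c d * M13 t = M13 (a * t) * (M23 (c * t) * Mio a b c d) by
    simp only [M12, M13, M21, M23, M31, M32, Mw, Mio, Mio3]
    ext i j
    fin_cases i <;> fin_cases j <;> simp [Matrix.mul_apply, Fin.sum_univ_three])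
lemma m23 (t : ℤ) : io a b c d h * e23 t = e13 (b * t) * (e23 (d * t) * io a b c d h) :=
  inj (show Mio a b c d * M23 t = M13 (b * t) * (M23 (d * t) * Mio a b c d) by
    simp only [M12, M13, M21, M23, M31, M32, Mw, Mio, Mio3]
    ext i j
    fin_cases i <;> fin_cases j <;> simp [Matrix.mul_apply, Fin.sum_univ_three])
lemma m31 (t : ℤ) : e31 t * io a b c d h = io a b c d h * (e31 (t * a) * e32 (t * b)) :=
  inj (show M31 t * Mio a b c d = Mio a b c d * (M31 (t * a) * M32 (t * b)) by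
    simp only [M12, M13, M21, M23, M31, M32, Mw, Mio, Mio3]
    ext i j
    fin_cases i <;> fin_cases j <;> simp [Matrix.mul_apply, Fin.sum_univ_three])
lemma m32 (t : ℤ) : e32 t * io a b c d h = io a b c d h * (e31 (t * c) * e32 (t * d)) :=
  inj (show M32 t * Mio a b c d = Mio a b c d * (M31 (t * c) * M32 (t * d)) by
    simp only [M12, M13, M21, M23, M31, M32, Mw, Mio, Mio3]
    ext i j
    fin_cases i <;> fin_cases j <;> simp [Matrix.mul_apply, Fin.sum_univ_three])
lemma hio3 : io3 a b c d h * w = w * io a b c d h :=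
  inj (show Mio3 a b c d * Mw = Mw * Mio a b c d by
    simp only [M12, M13, M21, M23, M31, M32, Mw, Mio, Mio3]
    ext i j
    fin_cases i <;> fin_cases j <;> simp [Matrix.mul_apply, Fin.sum_univ_three])


lemma wd1 {c' d' : ℤ} (h' : a * d' - b * c' = 1) :
    io a b c' d' h' = e21 ((c' - c) * d - (d' - d) * c) * io a b c d h := by
  have e1 : ((c' - c) * d - (d' - d) * c) * a + c = c' := by
    linear_combination (c' - c) * h + (-c) * (h' - h)
  have e2 : ((c' - c) * d - (d' - d) * c) * b + d = d' := by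
    linear_combination (d' - d) * h - d * (h' - h)
  refine inj (show Mio a b c' d' = M21 ((c' - c) * d - (d' - d) * c) * Mio a b c d from ?_)
  simp only [M21, Mio]
  ext i j
  fin_cases i <;> fin_cases j <;> simp [Matrix.mul_apply, Fin.sum_univ_three, e1, e2]

lemma per1m (t : ℤ) : io a b c d h * e21 t = e21 t * io (a + t * b) b
    (c + t * d - t * (a + t * b)) (d - t * b) (by linear_combination h) := by
  refine inj (show Mio a b c d * M21 t = M21 t * Mio (a + t * b) b
    (c + t * d - t * (a + t * b)) (d - t * b) from ?_)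
  simp only [M21, Mio]
  ext i j
  fin_cases i <;> fin_cases j <;> simp [Matrix.mul_apply, Fin.sum_univ_three] <;> ring

lemma per2m (t : ℤ) : io a b c d h * e12 t = io a (b + t * a) c (d + t * c)
    (by linear_combination h) := by
  refine inj (show Mio a b c d * M12 t = Mio a (b + t * a) c (d + t * c) from ?_)
  simp only [M12, Mio]
  ext i j
  fin_cases i <;> fin_cases j <;> simp [Matrix.mul_apply, Fin.sum_univ_three] <;> ring

lemma mulm {a1 c1 d1 a2 c2 d2 : ℤ} (h1 : a1 * d1 - b * c1 = 1) (h2 : a2 * d2 - b * c2 = 1)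
    (h3 : (a1 * a2) * (d1 * d2) - b * (c2 + d2 * c1 * a2) = 1) :
    e32 d2 * (io a1 b c1 d1 h1 * (io3 a2 b c2 d2 h2 * e23 (-a1))) =
      e21 (- d1 * c2) * (e23 a2 * (w * io (a1 * a2) b (c2 + d2 * c1 * a2) (d1 * d2) h3)) := by
  refine inj (show M32 d2 * (Mio a1 b c1 d1 * (Mio3 a2 b c2 d2 * M23 (-a1))) =
      M21 (- d1 * c2) * (M23 a2 * (Mw * Mio (a1 * a2) b (c2 + d2 * c1 * a2) (d1 * d2))) from ?_)
  simp only [M21, M23, M32, Mw, Mio, Mio3]
  ext i j
  fin_cases i <;> fin_cases j <;> simp [Matrix.mul_apply, Fin.sum_univ_three]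
  all_goals first
    | linear_combination a2 * c2 * h1 - a2 * c1 * h2
    | linear_combination (-d1) * h2
    | linear_combination -h1
    | linear_combination -d2 * h1
    | ring

end ThreeB

open ThreeB in
theorem t_three' (hA : StArith) : StThree := by
  intro H hN n0 hn0 hp
  haveI := hN
  set q : ℤ := 8 * n0 with hq
  let mk : SLn 3 →* SLn 3 ⧸ H := QuotientGroup.mk' H
  have mk1 : ∀ {x : SLn 3}, x ∈ H → mk x = 1 := fun {x} hx => (QuotientGroup.eq_one_iff x).2 hx
  have mk1' : ∀ {x : SLn 3}, mk x = 1 → x ∈ H := fun {x} hx => (QuotientGroup.eq_one_iff x).1 hx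
  have md : ∀ (e : ℤ → SLn 3), (∀ s t, e (s + t) = e s * e t) → ∀ t, q ∣ t → mk (e t) = 1 := by
    intro e he t ht
    obtain ⟨u, rfl⟩ := ht
    have h0 : e 0 = 1 := by
      have := he 0 0
      rw [add_zero] at this
      exact (mul_eq_left.1 this.symm)
    have hk : ∀ (k : ℕ) (s : ℤ), e (k * s) = e s ^ k := by
      intro k s
      induction k with
      | zero => simp [h0]
      | succ k ih =>
        rw [pow_succ, ← ih, ← he]
        congr 1
        push_cast
        ring
    have : q * u = (n0 : ℕ) * (8 * u) := by rw [hq]; ring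
    rw [this, hk]
    exact mk1 (hp _)
  have mdd : ∀ (e : ℤ → SLn 3), (∀ s t, e (s + t) = e s * e t) → ∀ s t, q ∣ s - t →
      mk (e s) = mk (e t) := by
    intro e he s t h
    have : s = (s - t) + t := by ring
    rw [this, he, map_mul, md e he _ h, one_mul]
  have cm : ∀ (a b c d : ℤ) (h : a * d - b * c = 1), q ∣ a - 1 → q ∣ b → q ∣ c → q ∣ d - 1 →
      (∀ t, Commute (mk (io a b c d h)) (mk (e13 t))) ∧
      (∀ t, Commute (mk (io a b c d h)) (mk (e23 t))) ∧
      (∀ t, Commute (mk (io a b c d h)) (mk (e31 t))) ∧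
      (∀ t, Commute (mk (io a b c d h)) (mk (e32 t))) := by
    intro a b c d h ha hb hc hd
    refine ⟨fun t => ?_, fun t => ?_, fun t => ?_, fun t => ?_⟩
    · have := congrArg mk (m13 h t)
      simp only [map_mul] at this
      rw [mdd e13 e13_add (a * t) t (by rw [show a * t - t = (a - 1) * t by ring]; exact ha.mul_right t),
        md e23 e23_add (c * t) (hc.mul_right t), one_mul] at this
      exact this
    · have := congrArg mk (m23 h t)
      simp only [map_mul] at this
      rw [mdd e23 e23_add (d * t) t (by rw [show d * t - t = (d - 1) * t by ring]; exact hd.mul_right t),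
        md e13 e13_add (b * t) (hb.mul_right t), one_mul] at this
      exact this
    · have := congrArg mk (m31 h t)
      simp only [map_mul] at this
      rw [mdd e31 e31_add (t * a) t (by rw [show t * a - t = (a - 1) * t by ring]; exact ha.mul_right t),
        md e32 e32_add (t * b) (hb.mul_left t), mul_one] at this
      exact this.symm
    · have := congrArg mk (m32 h t)
      simp only [map_mul] at this
      rw [mdd e32 e32_add (t * d) t (by rw [show t * d - t = (d - 1) * t by ring]; exact hd.mul_right t),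
        md e31 e31_add (t * c) (hc.mul_left t), one_mul] at this
      exact this.symm
  have cm21 : ∀ (a b c d : ℤ) (h : a * d - b * c = 1), q ∣ a - 1 → q ∣ b → q ∣ c → q ∣ d - 1 →
      ∀ t, Commute (mk (io a b c d h)) (mk (e21 t)) := by
    intro a b c d h ha hb hc hd t
    obtain ⟨h13, h23, h31, h32⟩ := cm a b c d h ha hb hc hd
    have e : e21 t = (e23 t * e31 1) * (e31 1 * e23 t)⁻¹ := by
      rw [c21 t]; group
    rw [e]
    simp only [map_mul, map_inv]
    exact ((h23 t).mul_right (h31 1)).mul_right (((h31 1).mul_right (h23 t)).inv_right)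
  have cmw : ∀ (a b c d : ℤ) (h : a * d - b * c = 1), q ∣ a - 1 → q ∣ b → q ∣ c → q ∣ d - 1 →
      Commute (mk (io a b c d h)) (mk w) := by
    intro a b c d h ha hb hc hd
    obtain ⟨h13, h23, h31, h32⟩ := cm a b c d h ha hb hc hd
    have e : w = (e23 1)⁻¹ * (e32 1 * e23 (-1)) := by
      rw [hw1]; group
    rw [e]
    simp only [map_mul, map_inv]
    exact ((h23 1).inv_right).mul_right ((h32 1).mul_right (h23 (-1)))
  have wd : ∀ (a b c d c' d' : ℤ) (h : a * d - b * c = 1) (h' : a * d' - b * c' = 1),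
      q ∣ c → q ∣ d - 1 → q ∣ c' → q ∣ d' - 1 → mk (io a b c' d' h') = mk (io a b c d h) := by
    intro a b c d c' d' h h' hc hd hc' hd'
    rw [wd1 h h', map_mul, md e21 e21_add _ ?_, one_mul]
    refine Dvd.dvd.sub (Dvd.dvd.mul_right (hc'.sub hc) d) (Dvd.dvd.mul_right ?_ c)
    have := hd'.sub hd
    rwa [show d' - 1 - (d - 1) = d' - d by ring] at this
  have ex : ∀ a b : ℤ, IsCoprime a b → q ∣ a - 1 → q ∣ b →
      ∃ c d : ℤ, ∃ _ : a * d - b * c = 1, q ∣ c ∧ q ∣ d - 1 := by
    intro a b hab ha hb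
    obtain ⟨u, v, huv⟩ := hab
    refine ⟨v * (a - 1), u + v * b, by linear_combination huv, ha.mul_left v, ?_⟩
    have : u + v * b - 1 = - (a - 1) * u := by linear_combination huv
    rw [this]
    exact (ha.neg_right).mul_right u |>.trans (by simp)
  obtain ⟨f, hf⟩ : ∃ f : ℤ → ℤ → SLn 3 ⧸ H, ∀ (a b c d : ℤ) (h : a * d - b * c = 1),
      q ∣ c → q ∣ d - 1 → f a b = mk (io a b c d h) := by
    classical
    refine ⟨fun a b => if h : ∃ p : ℤ × ℤ, ∃ _ : a * p.2 - b * p.1 = 1, q ∣ p.1 ∧ q ∣ p.2 - 1 then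
      mk (io a b h.choose.1 h.choose.2 h.choose_spec.choose) else 1, ?_⟩
    intro a b c d h hc hd
    have hex : ∃ p : ℤ × ℤ, ∃ _ : a * p.2 - b * p.1 = 1, q ∣ p.1 ∧ q ∣ p.2 - 1 :=
      ⟨(c, d), h, hc, hd⟩
    simp only [hex, dif_pos]
    exact wd a b c d _ _ h _ hc hd hex.choose_spec.choose_spec.1 hex.choose_spec.choose_spec.2
  have hQ : ∀ x : SLn 3 ⧸ H, x ^ n0 = 1 := by
    intro x
    obtain ⟨y, rfl⟩ := QuotientGroup.mk'_surjective H x
    rw [← map_pow]
    exact mk1 (hp y)
  have key := hA (SLn 3 ⧸ H) n0 hn0 hQ f ?_ ?_ ?_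
  · intro A hB hC
    have b02 : A.1 0 2 = 0 := by rw [hB 0 2 (by simp)]; simp
    have b12 : A.1 1 2 = 0 := by rw [hB 1 2 (by simp)]; simp
    have b20 : A.1 2 0 = 0 := by rw [hB 2 0 (by simp)]; simp
    have b21 : A.1 2 1 = 0 := by rw [hB 2 1 (by simp)]; simp
    have b22 : A.1 2 2 = 1 := by rw [hB 2 2 (by simp)]; simp
    have hdet : A.1 0 0 * A.1 1 1 - A.1 0 1 * A.1 1 0 = 1 := by
      have := A.2
      rw [Matrix.det_fin_three, b02, b12, b20, b21, b22] at this
      linarith
    have e : A = io (A.1 0 0) (A.1 0 1) (A.1 1 0) (A.1 1 1) hdet := by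
      refine inj (show A.1 = Mio (A.1 0 0) (A.1 0 1) (A.1 1 0) (A.1 1 1) from ?_)
      simp only [Mio]
      ext i j
      fin_cases i <;> fin_cases j <;> simp [b02, b12, b20, b21, b22]
    have c00 : q ∣ A.1 0 0 - 1 := by simpa using hC 0 0
    have c01 : q ∣ A.1 0 1 := by simpa using hC 0 1
    have c10 : q ∣ A.1 1 0 := by simpa using hC 1 0
    have c11 : q ∣ A.1 1 1 - 1 := by simpa using hC 1 1
    apply mk1'
    rw [e, ← hf _ _ _ _ hdet c10 c11]
    refine key _ _ ⟨A.1 1 1, - A.1 1 0, by linear_combination hdet⟩ c00 c01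
  · intro a b t hab ha hb
    obtain ⟨c, d, h, hc, hd⟩ := ex a b hab ha hb
    have h' : (a + t * b) * (d - t * b) - b * (c + t * d - t * (a + t * b)) = 1 := by
      linear_combination h
    have hc' : q ∣ c + t * d - t * (a + t * b) := by
      have : c + t * d - t * (a + t * b) = c + t * (d - 1) - t * (a - 1) - t * (t * b) := by ring
      rw [this]
      exact ((hc.add (hd.mul_left t)).sub (ha.mul_left t)).sub ((hb.mul_left t).mul_left t)
    have hd' : q ∣ d - t * b - 1 := by
      have : d - t * b - 1 = (d - 1) - t * b := by ring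
      rw [this]
      exact hd.sub (hb.mul_left t)
    rw [hf _ _ _ _ h' hc' hd', hf _ _ _ _ h hc hd]
    have := congrArg mk (per1m h t)
    simp only [map_mul] at this
    rw [(cm21 a b c d h ha hb hc hd t).eq] at this
    exact (mul_left_cancel this).symm
  · intro a b t hab ha hb
    obtain ⟨c, d, h, hc, hd⟩ := ex a b hab ha hb
    have h' : a * (d + (q * t) * c) - (b + (q * t) * a) * c = 1 := by
      linear_combination h
    have hd' : q ∣ d + (q * t) * c - 1 := by
      have : d + (q * t) * c - 1 = (d - 1) + q * (t * c) := by ring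
      rw [this]
      exact hd.add (dvd_mul_right _ _)
    rw [hf _ _ _ _ h hc hd]
    have e := hf a (b + (q * t) * a) c (d + (q * t) * c) h' hc hd'
    have := congrArg mk (per2m h (q * t))
    simp only [map_mul] at this
    rw [md e12 e12_add _ (dvd_mul_right q t), mul_one] at this
    rw [this]
    exact e
  · intro a1 a2 b hab1 hab2 ha1 ha2 hb
    obtain ⟨c1, d1, h1, hc1, hd1⟩ := ex a1 b hab1 ha1 hb
    obtain ⟨c2, d2, h2, hc2, hd2⟩ := ex a2 b hab2 ha2 hb
    have h3 : (a1 * a2) * (d1 * d2) - b * (c2 + d2 * c1 * a2) = 1 := by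
      linear_combination (a2 * d2) * h1 + h2
    have hc3 : q ∣ c2 + d2 * c1 * a2 := hc2.add ((hc1.mul_left d2).mul_right a2)
    have hd3 : q ∣ d1 * d2 - 1 := by
      have : d1 * d2 - 1 = (d1 - 1) * d2 + (d2 - 1) := by ring
      rw [this]
      exact (hd1.mul_right d2).add hd2
    have ha3 : q ∣ a1 * a2 - 1 := by
      have : a1 * a2 - 1 = (a1 - 1) * a2 + (a2 - 1) := by ring
      rw [this]
      exact (ha1.mul_right a2).add ha2
    rw [hf _ _ _ _ h3 hc3 hd3, hf _ _ _ _ h1 hc1 hd1, hf _ _ _ _ h2 hc2 hd2]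
    obtain ⟨k13, k23, k31, k32⟩ := cm _ _ _ _ h1 ha1 hb hc1 hd1
    obtain ⟨l13, l23, l31, l32⟩ := cm _ _ _ _ h2 ha2 hb hc2 hd2
    have e3 : mk (io3 a2 b c2 d2 h2) = mk (io a2 b c2 d2 h2) := by
      have := congrArg mk (hio3 h2)
      simp only [map_mul] at this
      rw [← (cmw _ _ _ _ h2 ha2 hb hc2 hd2).eq] at this
      exact mul_right_cancel this
    have m := congrArg mk (mulm h1 h2 h3)
    simp only [map_mul] at m
    rw [e3, mdd e32 e32_add d2 1 hd2, md e21 e21_add (-d1 * c2) (hc2.mul_left _), one_mul,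
      mdd e23 e23_add a2 1 ha2, mdd e23 e23_add (-a1) (-1)
        (by rw [show -a1 - -1 = -(a1 - 1) by ring]; exact ha1.neg_right)] at m
    have hw' := congrArg mk hw1
    simp only [map_mul] at hw'
    rw [← mul_assoc (mk (e23 1)) (mk w), ← hw'] at m
    have e4 : mk (e32 1) * (mk (io a1 b c1 d1 h1) * (mk (io a2 b c2 d2 h2) * mk (e23 (-1)))) =
        mk (e32 1) * mk (e23 (-1)) * (mk (io a1 b c1 d1 h1) * mk (io a2 b c2 d2 h2)) := by
      rw [(l23 (-1)).eq, ← mul_assoc (mk (io a1 b c1 d1 h1)), (k23 (-1)).eq]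
      simp only [mul_assoc]
    rw [e4] at m
    exact (mul_left_cancel m).symm

end Pool.Agent.TH610.CSP
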