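import Pool.Agent.TH610.CSP.Stm

/-! # The block embedding of `SL_3(ℤ)` in `SL_n(ℤ)` -/

set_option autoImplicit false

open Matrix

namespace Pool.Agent.TH610.CSP

namespace Two

/-- the matrix with upper left block `A` and lower right block the identity -/
def bl (k : ℕ) (A : Matrix (Fin 3) (Fin 3) ℤ) : Matrix (Fin (3 + k)) (Fin (3 + k)) ℤ :=
  (Matrix.fromBlocks A 0 0 (1 : Matrix (Fin k) (Fin k) ℤ)).submatrix
    finSumFinEquiv.symm finSumFinEquiv.symm

theorem bl_det (k : ℕ) (A : Matrix (Fin 3) (Fin 3) ℤ) : (bl k A).det = A.det := by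
  unfold bl
  rw [Matrix.det_submatrix_equiv_self, Matrix.det_fromBlocks_zero₂₁, Matrix.det_one, mul_one]

theorem bl_mul (k : ℕ) (A B : Matrix (Fin 3) (Fin 3) ℤ) : bl k (A * B) = bl k A * bl k B := by
  unfold bl
  rw [Matrix.submatrix_mul_equiv, Matrix.fromBlocks_multiply]
  simp

theorem bl_one (k : ℕ) : bl k 1 = 1 := by
  unfold bl
  rw [Matrix.fromBlocks_one, Matrix.submatrix_one_equiv]

/-- the block embedding -/
def emb (k : ℕ) : SLn 3 →* SLn (3 + k) where
  toFun A := ⟨bl k A.1, by rw [bl_det]; exact A.2⟩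
  map_one' := Subtype.ext (bl_one k)
  map_mul' A B := Subtype.ext (bl_mul k A.1 B.1)

theorem eq_bl (k : ℕ) (A : Matrix (Fin (3 + k)) (Fin (3 + k)) ℤ)
    (hA : ∀ i j : Fin (3 + k), (2 ≤ (i : ℕ) ∨ 2 ≤ (j : ℕ)) →
      A i j = (1 : Matrix (Fin (3 + k)) (Fin (3 + k)) ℤ) i j) :
    A = bl k (Matrix.of fun i j : Fin 3 => A (Fin.castAdd k i) (Fin.castAdd k j)) := by
  ext i j
  obtain ⟨i', rfl⟩ := finSumFinEquiv.surjective i
  obtain ⟨j', rfl⟩ := finSumFinEquiv.surjective j
  unfold bl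
  rw [Matrix.submatrix_apply, Equiv.symm_apply_apply, Equiv.symm_apply_apply]
  rcases i' with a | a <;> rcases j' with b | b
  · simp
  · rw [hA _ _ (Or.inr (by simp; omega)), Matrix.fromBlocks_apply₁₂, Matrix.one_apply_ne
      (fun h => by simpa using finSumFinEquiv.injective h)]
    rfl
  · rw [hA _ _ (Or.inl (by simp; omega)), Matrix.fromBlocks_apply₂₁, Matrix.one_apply_ne
      (fun h => by simpa using finSumFinEquiv.injective h)]
    rfl
  · rw [hA _ _ (Or.inl (by simp; omega)), Matrix.fromBlocks_apply₂₂]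
    simp only [Matrix.one_apply, EmbeddingLike.apply_eq_iff_eq, Sum.inr.injEq]

end Two

open Two in
theorem t_two (h3 : StThree) : StTwo := by
  intro n hn H hH n0 hn0 hpow A hA hC
  obtain ⟨k, rfl⟩ := Nat.exists_eq_add_of_le hn
  obtain ⟨B, hB⟩ : ∃ B : Matrix (Fin 3) (Fin 3) ℤ,
    B = Matrix.of fun i j : Fin 3 => A.1 (Fin.castAdd k i) (Fin.castAdd k j) := ⟨_, rfl⟩
  have hBe : ∀ i j, B i j = A.1 (Fin.castAdd k i) (Fin.castAdd k j) := by
    intro i j
    rw [hB]
    rfl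
  have hAB : A.1 = bl k B := by
    rw [hB]
    exact eq_bl k A.1 hA
  have hdet : B.det = 1 := by
    rw [← bl_det k, ← hAB]
    exact A.2
  have hone : ∀ i j : Fin 3, (1 : Matrix (Fin (3 + k)) (Fin (3 + k)) ℤ) (Fin.castAdd k i)
      (Fin.castAdd k j) = (1 : Matrix (Fin 3) (Fin 3) ℤ) i j := by
    intro i j
    simp only [Matrix.one_apply, Fin.castAdd_inj]
  obtain ⟨C, hCB⟩ : ∃ C : SLn 3, C.1 = B := ⟨⟨B, hdet⟩, rfl⟩
  have key : C ∈ H.comap (emb k) := by
    refine h3 (H.comap (emb k)) (hH.comap _) n0 hn0 ?_ C ?_ ?_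
    · intro X
      rw [Subgroup.mem_comap, map_pow]
      exact hpow _
    · intro i j hij
      rw [hCB, hBe, ← hone]
      exact hA _ _ (by simpa using hij)
    · intro i j
      rw [hCB, hBe, ← hone]
      exact hC _ _
  rw [Subgroup.mem_comap] at key
  have e : emb k C = A := Subtype.ext (by
    rw [hAB, ← hCB]
    rfl)
  rw [e] at key
  exact key

end Pool.Agent.TH610.CSP
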