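import Pool.Agent.TH610.CSP.Stm
import Pool.Agent.TH610.CSP.Arith
import Pool.Agent.TH610.CSP.Three2
import Pool.Agent.TH610.CSP.Two
import Pool.Agent.TH610.CSP.Red
import Pool.Agent.TH610.CSP.Gen
import Pool.Agent.TH610.CSP.Csp
import Pool.Agent.TH610.CSP.Res
import Pool.Agent.TH610.CSP.Sep
import Pool.Agent.TH610.CSP.Step
import Pool.Agent.TH148.CSP.Top

/-! # Assembly -/

set_option autoImplicit false

open Matrix

namespace Pool.Agent.TH610.CSP

/-- the congruence subgroup property of `SL_n(ℤ)`, `n ≥ 3` -/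
theorem csp : StCSP := t_csp (t_two (t_three' t_arith)) t_red

/-- the step from the Torelli group to the whole group -/
theorem top : StTop := H148.t_top csp (t_gen t_red)

/-- the step down the Johnson filtration -/
theorem step : StStep := t_step t_res t_sep

/-- down the Johnson filtration -/
theorem pc_one (n : ℕ) (N : Subgroup (MulAut (FF n))) (hN : N.Normal) (hf : N.FiniteIndex) :
    ∀ c : ℕ, PC N (c + 1) → PC N 1 := by
  intro c
  induction c with
  | zero => exact fun h => h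
  | succ c ih => exact fun h => ih (step n (c + 1) (by omega) N hN hf h)

/-- from any term of the Johnson filtration to the whole group -/
theorem pc_zero (n : ℕ) (hn : 3 ≤ n) (N : Subgroup (MulAut (FF n))) (hN : N.Normal)
    (hf : N.FiniteIndex) (c : ℕ) (h : PC N c) : PC N 0 := by
  cases c with
  | zero => exact h
  | succ c => exact top n hn N hN hf (pc_one n N hN hf c h)

/-- the outer form -/
theorem outer {n : ℕ} (N : Subgroup (MulAut (FF n))) (K : Subgroup (FF n))
    (hK : K.Characteristic) (h : ∀ ψ : MulAut (FF n), (∀ x, ψ x * x⁻¹ ∈ K) → ψ ∈ N)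
    (hi : ∀ g : FF n, MulAut.conj g ∈ N) (ψ : MulAut (FF n))
    (hψ : ∃ g : FF n, ∀ x : FF n, ψ x * (g * x * g⁻¹)⁻¹ ∈ K) : ψ ∈ N := by
  obtain ⟨g, hg⟩ := hψ
  have hKn : K.Normal := inferInstance
  have h1 : (MulAut.conj g)⁻¹ * ψ ∈ N := by
    apply h
    intro x
    have h2 : ((MulAut.conj g)⁻¹ * ψ) x = g⁻¹ * ψ x * g := by
      rw [MulAut.mul_apply, MulAut.conj_inv_apply]
    have h3 := hKn.conj_mem _ (hg x) g⁻¹
    rw [h2]
    have h4 : g⁻¹ * ψ x * g * x⁻¹ = g⁻¹ * (ψ x * (g * x * g⁻¹)⁻¹) * g⁻¹⁻¹ := by group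
    rw [h4]
    exact h3
  have h5 : ψ = MulAut.conj g * ((MulAut.conj g)⁻¹ * ψ) := by group
  rw [h5]
  exact N.mul_mem (hi g) h1

end Pool.Agent.TH610.CSP
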