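import Mathlib

/-! # The congruence subgroup property: statements of the pieces -/

set_option autoImplicit false

open Matrix

namespace Pool.Agent.TH610.CSP

/-! ## Part A: `SL_n(ℤ)`, `n ≥ 3` -/

/-- `SL_n(ℤ)` -/
abbrev SLn (n : ℕ) : Type := Matrix.SpecialLinearGroup (Fin n) ℤ

/-- `A` is congruent to the identity matrix modulo `m` -/
def Cong {n : ℕ} (m : ℤ) (A : SLn n) : Prop :=
  ∀ i j : Fin n, m ∣ A.1 i j - (1 : Matrix (Fin n) (Fin n) ℤ) i j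

/-- `A` agrees with the identity matrix outside the upper left `k × k` block -/
def Blk {n : ℕ} (k : ℕ) (A : SLn n) : Prop :=
  ∀ i j : Fin n, (k ≤ (i : ℕ) ∨ k ≤ (j : ℕ)) → A.1 i j = (1 : Matrix (Fin n) (Fin n) ℤ) i j

/-- the group generated by the transvections with off-diagonal entries divisible by `m` -/
def EE (n : ℕ) (m : ℤ) : Subgroup (SLn n) :=
  Subgroup.closure {A | ∃ (i j : Fin n) (h : i ≠ j) (t : ℤ),
    A = SpecialLinearGroup.transvection h (m * t)}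

/-- ARITH: Mennicke symbols with values in a group of finite exponent are trivial. -/
def StArith : Prop := ∀ (Q : Type) [Group Q] (n0 : ℕ), 0 < n0 → (∀ x : Q, x ^ n0 = 1) →
  ∀ f : ℤ → ℤ → Q,
  (∀ a b t : ℤ, IsCoprime a b → (8 * n0 : ℤ) ∣ a - 1 → (8 * n0 : ℤ) ∣ b →
    f (a + t * b) b = f a b) →
  (∀ a b t : ℤ, IsCoprime a b → (8 * n0 : ℤ) ∣ a - 1 → (8 * n0 : ℤ) ∣ b →
    f a (b + 8 * n0 * t * a) = f a b) →
  (∀ a a' b : ℤ, IsCoprime a b → IsCoprime a' b → (8 * n0 : ℤ) ∣ a - 1 → (8 * n0 : ℤ) ∣ a' - 1 →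
    (8 * n0 : ℤ) ∣ b → f (a * a') b = f a b * f a' b) →
  ∀ a b : ℤ, IsCoprime a b → (8 * n0 : ℤ) ∣ a - 1 → (8 * n0 : ℤ) ∣ b → f a b = 1

/-- THREE: the `2 × 2` blocks in `SL_3(ℤ)`. -/
def StThree : Prop := ∀ (H : Subgroup (SLn 3)), H.Normal → ∀ n0 : ℕ, 0 < n0 →
  (∀ A : SLn 3, A ^ n0 ∈ H) → ∀ A : SLn 3, Blk 2 A → Cong (8 * n0) A → A ∈ H

/-- TWO: the `2 × 2` blocks in `SL_n(ℤ)`. -/
def StTwo : Prop := ∀ (n : ℕ), 3 ≤ n → ∀ (H : Subgroup (SLn n)), H.Normal → ∀ n0 : ℕ, 0 < n0 →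
  (∀ A : SLn n, A ^ n0 ∈ H) → ∀ A : SLn n, Blk 2 A → Cong (8 * n0) A → A ∈ H

/-- RED: reduction of the size of the block. -/
def StRed : Prop := ∀ (n k : ℕ) (m : ℤ), 2 ≤ k → k + 1 ≤ n → 1 ≤ m → ∀ A : SLn n, Blk (k + 1) A →
  Cong (m ^ 2) A → ∃ E₁ ∈ EE n m, ∃ E₂ ∈ EE n m, ∃ A' : SLn n, Blk k A' ∧ Cong m A' ∧
    A = E₁ * A' * E₂

/-- GEN: `SL_n(ℤ)` is generated by transvections. -/
def StGen : Prop := ∀ n : ℕ, EE n 1 = ⊤

/-- CSP: the congruence subgroup property of `SL_n(ℤ)`, `n ≥ 3`. -/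
def StCSP : Prop := ∀ (n : ℕ), 3 ≤ n → ∀ (H : Subgroup (SLn n)), H.FiniteIndex →
  ∃ M : ℕ, 0 < M ∧ ∀ A : SLn n, Cong M A → A ∈ H

/-! ## Part B: automorphisms of free groups -/

/-- the free group of rank `n` -/
abbrev FF (n : ℕ) : Type := FreeGroup (Fin n)

/-- `ψ` acts trivially on `F_n / K` -/
def Triv {n : ℕ} (K : Subgroup (FF n)) (ψ : MulAut (FF n)) : Prop := ∀ x : FF n, ψ x * x⁻¹ ∈ K

/-- the lower central series, `gam n 0 = F_n`, `gam n 1 = [F_n, F_n]` -/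
abbrev gam (n c : ℕ) : Subgroup (FF n) := (⊤ : Subgroup (FF n)).lowerCentralSeries c

/-- on the kernel of the action on `F_n / gam n c`, the subgroup `N` contains a congruence
subgroup -/
def PC {n : ℕ} (N : Subgroup (MulAut (FF n))) (c : ℕ) : Prop :=
  ∃ K : Subgroup (FF n), K.Characteristic ∧ K.FiniteIndex ∧
    ∀ ψ : MulAut (FF n), Triv K ψ → Triv (gam n c) ψ → ψ ∈ N

/-- RES: residual finiteness of `F_n / gam n (c + 1)`, made quantitative on the last factor. -/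
def StRes : Prop := ∀ (n c M : ℕ), 1 ≤ c → 0 < M → ∃ K : Subgroup (FF n), K.Characteristic ∧
  K.FiniteIndex ∧ ∀ x ∈ K, x ∈ gam n c → ∃ y ∈ gam n c, x * (y ^ M)⁻¹ ∈ gam n (c + 1)

/-- SEP: separability in finitely generated abelian groups. -/
def StSep : Prop := ∀ (ι : Type) [Finite ι] (D : Type) [CommGroup D] [Group.FG D]
  (A L : Subgroup (ι → D)) (e : ℕ), 0 < e → L ≤ A → (∀ a ∈ A, a ^ e ∈ L) →
  ∃ M : ℕ, 0 < M ∧ ∀ y : ι → D, y ^ M ∈ A → y ^ M ∈ L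

/-- STEP: one step down the Johnson filtration. -/
def StStep : Prop := ∀ (n c : ℕ), 1 ≤ c → ∀ N : Subgroup (MulAut (FF n)), N.Normal → N.FiniteIndex →
  PC N (c + 1) → PC N c

/-- TOP: the last step, from the Torelli group `IA_n` to `Aut (F_n)`. -/
def StTop : Prop := ∀ (n : ℕ), 3 ≤ n → ∀ N : Subgroup (MulAut (FF n)), N.Normal → N.FiniteIndex →
  PC N 1 → PC N 0

end Pool.Agent.TH610.CSP
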