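import Pool.Agent.TH610.CSP.Stm

/-! # The `2 × 2` blocks in `SL_3(ℤ)`: Mennicke symbols -/

set_option autoImplicit false

open Matrix

namespace Pool.Agent.TH610.CSP

namespace Three

theorem val_mul (A B : SLn 3) : (A * B).1 = A.1 * B.1 := rfl

theorem sl_ext (A B : SLn 3) (h : A.1 = B.1) : A = B := Subtype.ext h

/-- the block matrix -/
def bm (a b c d : ℤ) (h : a * d - b * c = 1) : SLn 3 :=
  ⟨!![a, b, 0; c, d, 0; 0, 0, 1], by rw [Matrix.det_fin_three]; simp; linarith⟩

/-- the block matrix in the rows 1 and 3 -/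
def bm' (a b c d : ℤ) (h : a * d - b * c = 1) : SLn 3 :=
  ⟨!![a, 0, b; 0, 1, 0; c, 0, d], by rw [Matrix.det_fin_three]; simp; linarith⟩

theorem bm_val (a b c d : ℤ) (h : a * d - b * c = 1) :
    (bm a b c d h).1 = !![a, b, 0; c, d, 0; 0, 0, 1] := rfl

theorem bm'_val (a b c d : ℤ) (h : a * d - b * c = 1) :
    (bm' a b c d h).1 = !![a, 0, b; 0, 1, 0; c, 0, d] := rfl

/-- Weyl element -/
def ww : SLn 3 := ⟨!![1, 0, 0; 0, 0, -1; 0, 1, 0], by rw [Matrix.det_fin_three]; simp⟩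

theorem ww_val : ww.1 = !![1, 0, 0; 0, 0, -1; 0, 1, 0] := rfl

/-- elementary matrix -/
def e12 (t : ℤ) : SLn 3 := ⟨!![1, t, 0; 0, 1, 0; 0, 0, 1], by rw [Matrix.det_fin_three]; simp⟩

theorem e12_val (t : ℤ) : (e12 t).1 = !![1, t, 0; 0, 1, 0; 0, 0, 1] := rfl

theorem e12_add (s t : ℤ) : e12 (s + t) = e12 s * e12 t := by
  refine sl_ext _ _ ?_
  simp only [val_mul, e12_val]
  ext i j
  fin_cases i <;> fin_cases j <;> simp [Matrix.mul_apply, Fin.sum_univ_three, add_comm]

/-- elementary matrix -/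
def e13 (t : ℤ) : SLn 3 := ⟨!![1, 0, t; 0, 1, 0; 0, 0, 1], by rw [Matrix.det_fin_three]; simp⟩

theorem e13_val (t : ℤ) : (e13 t).1 = !![1, 0, t; 0, 1, 0; 0, 0, 1] := rfl

theorem e13_add (s t : ℤ) : e13 (s + t) = e13 s * e13 t := by
  refine sl_ext _ _ ?_
  simp only [val_mul, e13_val]
  ext i j
  fin_cases i <;> fin_cases j <;> simp [Matrix.mul_apply, Fin.sum_univ_three, add_comm]

/-- elementary matrix -/
def e21 (t : ℤ) : SLn 3 := ⟨!![1, 0, 0; t, 1, 0; 0, 0, 1], by rw [Matrix.det_fin_three]; simp⟩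

theorem e21_val (t : ℤ) : (e21 t).1 = !![1, 0, 0; t, 1, 0; 0, 0, 1] := rfl

theorem e21_add (s t : ℤ) : e21 (s + t) = e21 s * e21 t := by
  refine sl_ext _ _ ?_
  simp only [val_mul, e21_val]
  ext i j
  fin_cases i <;> fin_cases j <;> simp [Matrix.mul_apply, Fin.sum_univ_three, add_comm]

/-- elementary matrix -/
def e23 (t : ℤ) : SLn 3 := ⟨!![1, 0, 0; 0, 1, t; 0, 0, 1], by rw [Matrix.det_fin_three]; simp⟩

theorem e23_val (t : ℤ) : (e23 t).1 = !![1, 0, 0; 0, 1, t; 0, 0, 1] := rfl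

theorem e23_add (s t : ℤ) : e23 (s + t) = e23 s * e23 t := by
  refine sl_ext _ _ ?_
  simp only [val_mul, e23_val]
  ext i j
  fin_cases i <;> fin_cases j <;> simp [Matrix.mul_apply, Fin.sum_univ_three, add_comm]

/-- elementary matrix -/
def e31 (t : ℤ) : SLn 3 := ⟨!![1, 0, 0; 0, 1, 0; t, 0, 1], by rw [Matrix.det_fin_three]; simp⟩

theorem e31_val (t : ℤ) : (e31 t).1 = !![1, 0, 0; 0, 1, 0; t, 0, 1] := rfl

theorem e31_add (s t : ℤ) : e31 (s + t) = e31 s * e31 t := by
  refine sl_ext _ _ ?_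
  simp only [val_mul, e31_val]
  ext i j
  fin_cases i <;> fin_cases j <;> simp [Matrix.mul_apply, Fin.sum_univ_three, add_comm]

/-- elementary matrix -/
def e32 (t : ℤ) : SLn 3 := ⟨!![1, 0, 0; 0, 1, 0; 0, t, 1], by rw [Matrix.det_fin_three]; simp⟩

theorem e32_val (t : ℤ) : (e32 t).1 = !![1, 0, 0; 0, 1, 0; 0, t, 1] := rfl

theorem e32_add (s t : ℤ) : e32 (s + t) = e32 s * e32 t := by
  refine sl_ext _ _ ?_
  simp only [val_mul, e32_val]
  ext i j
  fin_cases i <;> fin_cases j <;> simp [Matrix.mul_apply, Fin.sum_univ_three, add_comm]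

/-- an additive family of elements of a group -/
theorem pow_of_add (e : ℤ → SLn 3) (he : ∀ s t, e (s + t) = e s * e t) (t : ℤ) (n : ℕ) :
    e (n * t) = e t ^ n := by
  have h0 : e 0 = 1 := by
    have := he 0 0
    simpa using this
  induction n with
  | zero => simp [h0]
  | succ n ih =>
    rw [pow_succ, ← ih, ← he]
    congr 1
    push_cast
    ring

theorem mem_of_add {H : Subgroup (SLn 3)} {n0 : ℕ} (hp : ∀ A : SLn 3, A ^ n0 ∈ H) (e : ℤ → SLn 3)
    (he : ∀ s t, e (s + t) = e s * e t) {u : ℤ} (hu : (8 * n0 : ℤ) ∣ u) : e u ∈ H := by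
  obtain ⟨t, rfl⟩ := hu
  have := pow_of_add e he (8 * t) n0
  have h2 : (8 * (n0 : ℤ) * t) = n0 * (8 * t) := by ring
  rw [h2, this]
  exact hp _

theorem bm_e13 (a b c d : ℤ) (h : a * d - b * c = 1) (v : ℤ) :
    bm a b c d h * e13 v = e13 (a * v) * e23 (c * v) * bm a b c d h := by
  refine sl_ext _ _ ?_
  simp only [val_mul, bm_val, e13_val, e23_val]
  ext i j
  fin_cases i <;> fin_cases j <;> simp [Matrix.mul_apply, Fin.sum_univ_three]

theorem bm_e23 (a b c d : ℤ) (h : a * d - b * c = 1) (v : ℤ) :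
    bm a b c d h * e23 v = e13 (b * v) * e23 (d * v) * bm a b c d h := by
  refine sl_ext _ _ ?_
  simp only [val_mul, bm_val, e13_val, e23_val]
  ext i j
  fin_cases i <;> fin_cases j <;> simp [Matrix.mul_apply, Fin.sum_univ_three]

theorem bm_e31 (a b c d : ℤ) (h : a * d - b * c = 1) (v : ℤ) :
    bm a b c d h * e31 v = e31 (d * v) * e32 (-(b * v)) * bm a b c d h := by
  refine sl_ext _ _ ?_
  simp only [val_mul, bm_val, e31_val, e32_val]
  ext i j
  fin_cases i <;> fin_cases j <;> simp [Matrix.mul_apply, Fin.sum_univ_three]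
  · linear_combination (-v) * h
  · ring

theorem bm_e32 (a b c d : ℤ) (h : a * d - b * c = 1) (v : ℤ) :
    bm a b c d h * e32 v = e31 (-(c * v)) * e32 (a * v) * bm a b c d h := by
  refine sl_ext _ _ ?_
  simp only [val_mul, bm_val, e31_val, e32_val]
  ext i j
  fin_cases i <;> fin_cases j <;> simp [Matrix.mul_apply, Fin.sum_univ_three]
  · ring
  · linear_combination (-v) * h

theorem e21_eq (t : ℤ) :
    e21 t = e23 t * e31 1 * e23 (-t) * e31 (-1) := by
  refine sl_ext _ _ ?_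
  simp only [val_mul, e21_val, e23_val, e31_val]
  ext i j
  fin_cases i <;> fin_cases j <;> simp [Matrix.mul_apply, Fin.sum_univ_three]

theorem ww_eq  :
    ww = e23 (-1) * e32 1 * e23 (-1) := by
  refine sl_ext _ _ ?_
  simp only [val_mul, ww_val, e23_val, e32_val]
  ext i j
  fin_cases i <;> fin_cases j <;> simp [Matrix.mul_apply, Fin.sum_univ_three]

theorem bm'_eq (a b c d : ℤ) (h : a * d - b * c = 1) :
    bm' a b c d h * ww = ww * bm a b c d h := by
  refine sl_ext _ _ ?_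
  simp only [val_mul, bm_val, bm'_val, ww_val]
  ext i j
  fin_cases i <;> fin_cases j <;> simp [Matrix.mul_apply, Fin.sum_univ_three]

theorem key_id (a1 a2 b c1 d1 c2 d2 : ℤ) (h1 : a1 * d1 - b * c1 = 1) (h2 : a2 * d2 - b * c2 = 1)
    (h3 : (a1 * a2) * (d1 * d2) - b * (c2 + d2 * c1 * a2) = 1) :
    e32 d2 * bm a1 b c1 d1 h1 * bm' a2 b c2 d2 h2 * e23 (-a1) =
      e21 (-(d1 * c2)) * e23 a2 * ww * bm (a1 * a2) b (c2 + d2 * c1 * a2) (d1 * d2) h3 := by
  refine sl_ext _ _ ?_
  simp only [val_mul, bm_val, bm'_val, ww_val, e21_val, e23_val, e32_val]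
  ext i j
  fin_cases i <;> fin_cases j <;> simp [Matrix.mul_apply, Fin.sum_univ_three]
  · ring
  · linear_combination (a2 * c2) * h1 - (c1 * a2) * h2
  · linear_combination (-d1) * h2
  · linear_combination (-1) * h1
  · ring
  · ring
  · linear_combination (-d2) * h1

theorem bm_e21l (a b c d : ℤ) (h : a * d - b * c = 1) (t : ℤ)
    (h2 : (a + t * b) * (d - t * b) - b * (c + t * d - t * (a + t * b)) = 1) :
    e21 (-t) * bm a b c d h * e21 t =
      bm (a + t * b) b (c + t * d - t * (a + t * b)) (d - t * b) h2 := by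
  refine sl_ext _ _ ?_
  simp only [val_mul, bm_val, e21_val]
  ext i j
  fin_cases i <;> fin_cases j <;> simp [Matrix.mul_apply, Fin.sum_univ_three]
  all_goals ring

theorem bm_e12r (a b c d : ℤ) (h : a * d - b * c = 1) (t : ℤ)
    (h2 : a * (d + t * c) - (b + t * a) * c = 1) :
    bm a b c d h * e12 t = bm a (b + t * a) c (d + t * c) h2 := by
  refine sl_ext _ _ ?_
  simp only [val_mul, bm_val, e12_val]
  ext i j
  fin_cases i <;> fin_cases j <;> simp [Matrix.mul_apply, Fin.sum_univ_three]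
  all_goals ring

theorem bm_two (a b c d c2 d2 : ℤ) (h : a * d - b * c = 1) (h2 : a * d2 - b * c2 = 1) :
    bm a b c2 d2 h2 = e21 (c2 * d - c * d2) * bm a b c d h := by
  refine sl_ext _ _ ?_
  simp only [val_mul, bm_val, e21_val]
  ext i j
  fin_cases i <;> fin_cases j <;> simp [Matrix.mul_apply, Fin.sum_univ_three]
  · linear_combination (-c2) * h + c * h2
  · linear_combination (-d2) * h + d * h2


section

variable {H : Subgroup (SLn 3)} [H.Normal] {n0 : ℕ}

/-- class modulo `H` -/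
abbrev pp (H : Subgroup (SLn 3)) [H.Normal] : SLn 3 →* SLn 3 ⧸ H := QuotientGroup.mk' H

theorem pp_one (hp : ∀ A : SLn 3, A ^ n0 ∈ H) (e : ℤ → SLn 3)
    (he : ∀ s t, e (s + t) = e s * e t) {u : ℤ} (hu : (8 * n0 : ℤ) ∣ u) : pp H (e u) = 1 :=
  (QuotientGroup.eq_one_iff _).mpr (mem_of_add hp e he hu)

theorem pp_congr (hp : ∀ A : SLn 3, A ^ n0 ∈ H) (e : ℤ → SLn 3)
    (he : ∀ s t, e (s + t) = e s * e t) {u v : ℤ} (hu : (8 * n0 : ℤ) ∣ u - v) :
    pp H (e u) = pp H (e v) := by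
  have h : e u = e (u - v) * e v := by rw [← he]; congr 1; ring
  rw [h, map_mul, pp_one hp e he hu, one_mul]

/-- the congruence conditions -/
structure Val (q a b c d : ℤ) : Prop where
  det : a * d - b * c = 1
  ha : q ∣ a - 1
  hb : q ∣ b
  hc : q ∣ c
  hd : q ∣ d - 1

theorem c13 (hp : ∀ A : SLn 3, A ^ n0 ∈ H) {a b c d : ℤ} (V : Val (8 * n0) a b c d) (v : ℤ) :
    Commute (pp H (bm a b c d V.det)) (pp H (e13 v)) := by
  have h1 : pp H (e13 (a * v)) = pp H (e13 v) := pp_congr hp e13 e13_add (by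
    have := V.ha.mul_right v
    rwa [sub_mul, one_mul] at this)
  have h2 : pp H (e23 (c * v)) = 1 := pp_one hp e23 e23_add (V.hc.mul_right v)
  have := congrArg (pp H) (bm_e13 a b c d V.det v)
  rw [map_mul, map_mul, map_mul, h1, h2, mul_one] at this
  exact this

theorem c23 (hp : ∀ A : SLn 3, A ^ n0 ∈ H) {a b c d : ℤ} (V : Val (8 * n0) a b c d) (v : ℤ) :
    Commute (pp H (bm a b c d V.det)) (pp H (e23 v)) := by
  have h1 : pp H (e23 (d * v)) = pp H (e23 v) := pp_congr hp e23 e23_add (by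
    have := V.hd.mul_right v
    rwa [sub_mul, one_mul] at this)
  have h2 : pp H (e13 (b * v)) = 1 := pp_one hp e13 e13_add (V.hb.mul_right v)
  have := congrArg (pp H) (bm_e23 a b c d V.det v)
  rw [map_mul, map_mul, map_mul, h1, h2, one_mul] at this
  exact this

theorem c31 (hp : ∀ A : SLn 3, A ^ n0 ∈ H) {a b c d : ℤ} (V : Val (8 * n0) a b c d) (v : ℤ) :
    Commute (pp H (bm a b c d V.det)) (pp H (e31 v)) := by
  have h1 : pp H (e31 (d * v)) = pp H (e31 v) := pp_congr hp e31 e31_add (by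
    have := V.hd.mul_right v
    rwa [sub_mul, one_mul] at this)
  have h2 : pp H (e32 (-(b * v))) = 1 := pp_one hp e32 e32_add ((V.hb.mul_right v).neg_right)
  have := congrArg (pp H) (bm_e31 a b c d V.det v)
  rw [map_mul, map_mul, map_mul, h1, h2, mul_one] at this
  exact this

theorem c32 (hp : ∀ A : SLn 3, A ^ n0 ∈ H) {a b c d : ℤ} (V : Val (8 * n0) a b c d) (v : ℤ) :
    Commute (pp H (bm a b c d V.det)) (pp H (e32 v)) := by
  have h1 : pp H (e32 (a * v)) = pp H (e32 v) := pp_congr hp e32 e32_add (by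
    have := V.ha.mul_right v
    rwa [sub_mul, one_mul] at this)
  have h2 : pp H (e31 (-(c * v))) = 1 := pp_one hp e31 e31_add ((V.hc.mul_right v).neg_right)
  have := congrArg (pp H) (bm_e32 a b c d V.det v)
  rw [map_mul, map_mul, map_mul, h1, h2, one_mul] at this
  exact this

theorem c21 (hp : ∀ A : SLn 3, A ^ n0 ∈ H) {a b c d : ℤ} (V : Val (8 * n0) a b c d) (v : ℤ) :
    Commute (pp H (bm a b c d V.det)) (pp H (e21 v)) := by
  rw [e21_eq, map_mul, map_mul, map_mul]
  exact (((c23 hp V v).mul_right (c31 hp V 1)).mul_right (c23 hp V (-v))).mul_right (c31 hp V (-1))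

theorem cww (hp : ∀ A : SLn 3, A ^ n0 ∈ H) {a b c d : ℤ} (V : Val (8 * n0) a b c d) :
    Commute (pp H (bm a b c d V.det)) (pp H ww) := by
  rw [ww_eq, map_mul, map_mul]
  exact ((c23 hp V (-1)).mul_right (c32 hp V 1)).mul_right (c23 hp V (-1))

open Classical in
/-- the symbol -/
noncomputable def ff (H : Subgroup (SLn 3)) [H.Normal] (q a b : ℤ) : SLn 3 ⧸ H :=
  if h : ∃ c d : ℤ, Val q a b c d then
    pp H (bm a b h.choose h.choose_spec.choose h.choose_spec.choose_spec.det) else 1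

theorem ff_eq (hp : ∀ A : SLn 3, A ^ n0 ∈ H) {a b c d : ℤ} (V : Val (8 * n0) a b c d) :
    ff H (8 * n0) a b = pp H (bm a b c d V.det) := by
  have h : ∃ c d : ℤ, Val (8 * n0) a b c d := ⟨c, d, V⟩
  unfold ff
  rw [dif_pos h]
  have W := h.choose_spec.choose_spec
  rw [bm_two a b c d h.choose h.choose_spec.choose V.det W.det, map_mul,
    pp_one hp e21 e21_add ((W.hc.mul_right d).sub (V.hc.mul_right _)), one_mul]

theorem exists_val {q a b : ℤ} (hab : IsCoprime a b) (ha : q ∣ a - 1) (hb : q ∣ b) :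
    ∃ c d : ℤ, Val q a b c d := by
  obtain ⟨x, y, hxy⟩ := hab
  -- x * a + y * b = 1, d0 = x, c0 = - y
  obtain ⟨α, hα⟩ := ha
  obtain ⟨β, hβ⟩ := hb
  have ha' : a = 1 + q * α := by linarith
  refine ⟨-y + y * a, x + y * b, ?_, ⟨α, hα⟩, ⟨β, hβ⟩, ?_, ?_⟩
  · linear_combination hxy
  · exact ⟨y * α, by rw [ha']; ring⟩
  · -- d - 1 = x + y b - 1
    refine ⟨-(x * α), ?_⟩
    linear_combination hxy - x * hα

theorem t_val_mul {q a1 a2 b c1 d1 c2 d2 : ℤ} (V1 : Val q a1 b c1 d1) (V2 : Val q a2 b c2 d2) :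
    Val q (a1 * a2) b (c2 + d2 * c1 * a2) (d1 * d2) := by
  refine ⟨?_, ?_, V1.hb, ?_, ?_⟩
  · linear_combination (a2 * d2) * V1.det + V2.det
  · have : a1 * a2 - 1 = (a1 - 1) * a2 + (a2 - 1) := by ring
    rw [this]
    exact (V1.ha.mul_right _).add V2.ha
  · exact V2.hc.add ((V1.hc.mul_left d2).mul_right a2)
  · have : d1 * d2 - 1 = (d1 - 1) * d2 + (d2 - 1) := by ring
    rw [this]
    exact (V1.hd.mul_right _).add V2.hd

theorem e_last (x : ℤ) : e23 x * ww = e23 (x - 1) * e32 1 * e23 (-1) := by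
  rw [ww_eq, ← mul_assoc, ← mul_assoc, ← e23_add, sub_eq_add_neg]

theorem e23_zero : e23 0 = 1 := by
  have := e23_add 0 0
  simpa using this

theorem ff_mul (hp : ∀ A : SLn 3, A ^ n0 ∈ H) {a1 a2 b c1 d1 c2 d2 : ℤ}
    (V1 : Val (8 * n0) a1 b c1 d1) (V2 : Val (8 * n0) a2 b c2 d2) :
    pp H (bm (a1 * a2) b (c2 + d2 * c1 * a2) (d1 * d2) (t_val_mul V1 V2).det) =
      pp H (bm a1 b c1 d1 V1.det) * pp H (bm a2 b c2 d2 V2.det) := by
  have V3 := t_val_mul V1 V2
  have h := congrArg (pp H) (key_id a1 a2 b c1 d1 c2 d2 V1.det V2.det V3.det)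
  have hb' : pp H (bm' a2 b c2 d2 V2.det) = pp H (bm a2 b c2 d2 V2.det) := by
    have h1 := congrArg (pp H) (bm'_eq a2 b c2 d2 V2.det)
    rw [map_mul, map_mul, ← (cww hp V2).eq] at h1
    exact mul_right_cancel h1
  have h21 : pp H (e21 (-(d1 * c2))) = 1 :=
    pp_one hp e21 e21_add ((V2.hc.mul_left d1).neg_right)
  have h32 : pp H (e32 d2) = pp H (e32 1) := pp_congr hp e32 e32_add V2.hd
  have h23 : pp H (e23 (-a1)) = pp H (e23 (-1)) := pp_congr hp e23 e23_add (by
    have : -a1 - -1 = -(a1 - 1) := by ring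
    rw [this]
    exact V1.ha.neg_right)
  have h23' : pp H (e23 a2) = pp H (e23 1) := pp_congr hp e23 e23_add V2.ha
  rw [map_mul, map_mul, map_mul, map_mul, map_mul, map_mul, hb', h21, h32, h23, h23', one_mul] at h
  have hw : pp H (e23 1) * pp H ww = pp H (e32 1) * pp H (e23 (-1)) := by
    rw [← map_mul, ← map_mul, e_last]
    simp [e23_zero]
  rw [hw] at h
  have k1 := (c32 hp V1 1).eq
  have k2 := (c23 hp V1 (-1)).eq
  have k3 := (c32 hp V2 1).eq
  have k4 := (c23 hp V2 (-1)).eq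
  have k5 := (c32 hp V3 1).eq
  have k6 := (c23 hp V3 (-1)).eq
  set X := pp H (bm (a1 * a2) b (c2 + d2 * c1 * a2) (d1 * d2) V3.det)
  set A1 := pp H (bm a1 b c1 d1 V1.det)
  set A2 := pp H (bm a2 b c2 d2 V2.det)
  set u := pp H (e32 1)
  set v := pp H (e23 (-1))
  -- h : u * A1 * A2 * v = u * v * X
  have h' : A1 * A2 * (u * v) = X * (u * v) := by
    calc A1 * A2 * (u * v) = u * A1 * A2 * v := by
          rw [← k1, mul_assoc A1 u A2, ← k3]
          simp only [mul_assoc]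
      _ = u * v * X := h
      _ = X * (u * v) := by
          rw [← mul_assoc, k5, mul_assoc, mul_assoc, k6]
  exact (mul_right_cancel h').symm

end

end Three

theorem t_three (hA : StArith) : StThree := by
  intro H hH n0 hn0 hp A hB hC
  open Three in
  have hex : ∀ x : SLn 3 ⧸ H, x ^ n0 = 1 := by
    intro x
    obtain ⟨y, rfl⟩ := QuotientGroup.mk'_surjective H x
    rw [← map_pow]
    exact (QuotientGroup.eq_one_iff _).mpr (hp y)
  have key := hA (SLn 3 ⧸ H) n0 hn0 hex (ff H (8 * n0))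
    (by
      intro a b t hab ha hb
      obtain ⟨c, d, V⟩ := exists_val hab ha hb
      have V' : Val (8 * n0) (a + t * b) b (c + t * d - t * (a + t * b)) (d - t * b) := by
        refine ⟨?_, ?_, V.hb, ?_, ?_⟩
        · linear_combination V.det
        · have : a + t * b - 1 = (a - 1) + t * b := by ring
          rw [this]
          exact V.ha.add (V.hb.mul_left t)
        · have : c + t * d - t * (a + t * b) = c + t * (d - 1) - t * (a - 1) - t * t * b := by ring
          rw [this]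
          exact ((V.hc.add (V.hd.mul_left t)).sub (V.ha.mul_left t)).sub (V.hb.mul_left _)
        · have : d - t * b - 1 = (d - 1) - t * b := by ring
          rw [this]
          exact V.hd.sub (V.hb.mul_left t)
      rw [ff_eq hp V, ff_eq hp V', ← bm_e21l a b c d V.det t V'.det, map_mul, map_mul]
      have k := (c21 hp V t).eq
      rw [mul_assoc, k, ← mul_assoc, ← map_mul, ← e21_add]
      have : e21 (-t + t) = 1 := by
        have := e21_add 0 0
        simpa using this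
      rw [this, map_one, one_mul])
    (by
      intro a b t hab ha hb
      obtain ⟨c, d, V⟩ := exists_val hab ha hb
      have V' : Val (8 * n0) a (b + 8 * n0 * t * a) c (d + 8 * n0 * t * c) := by
        refine ⟨?_, V.ha, ?_, V.hc, ?_⟩
        · linear_combination V.det
        · exact V.hb.add ⟨t * a, by ring⟩
        · have : d + 8 * n0 * t * c - 1 = (d - 1) + 8 * n0 * (t * c) := by ring
          rw [this]
          exact V.hd.add ⟨t * c, by ring⟩
      rw [ff_eq hp V, ff_eq hp V', ← bm_e12r a b c d V.det (8 * n0 * t) V'.det, map_mul,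
        pp_one hp e12 e12_add ⟨t, rfl⟩, mul_one])
    (by
      intro a a' b hab hab' ha ha' hb
      obtain ⟨c, d, V⟩ := exists_val hab ha hb
      obtain ⟨c', d', V'⟩ := exists_val hab' ha' hb
      rw [ff_eq hp V, ff_eq hp V', ff_eq hp (t_val_mul V V'), ff_mul hp V V'])
  have hdet : A.1.det = 1 := A.2
  have e02 : A.1 0 2 = 0 := by
    have := hB 0 2 (Or.inr (le_refl _))
    rwa [Matrix.one_apply_ne (by decide)] at this
  have e12 : A.1 1 2 = 0 := by
    have := hB 1 2 (Or.inr (le_refl _))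
    rwa [Matrix.one_apply_ne (by decide)] at this
  have e20 : A.1 2 0 = 0 := by
    have := hB 2 0 (Or.inl (le_refl _))
    rwa [Matrix.one_apply_ne (by decide)] at this
  have e21 : A.1 2 1 = 0 := by
    have := hB 2 1 (Or.inl (le_refl _))
    rwa [Matrix.one_apply_ne (by decide)] at this
  have e22 : A.1 2 2 = 1 := by
    have := hB 2 2 (Or.inl (le_refl _))
    rwa [Matrix.one_apply_eq] at this
  have c00 : (8 * n0 : ℤ) ∣ A.1 0 0 - 1 := by
    have := hC 0 0
    rwa [Matrix.one_apply_eq] at this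
  have c11 : (8 * n0 : ℤ) ∣ A.1 1 1 - 1 := by
    have := hC 1 1
    rwa [Matrix.one_apply_eq] at this
  have c01 : (8 * n0 : ℤ) ∣ A.1 0 1 := by
    have := hC 0 1
    rwa [Matrix.one_apply_ne (by decide), sub_zero] at this
  have c10 : (8 * n0 : ℤ) ∣ A.1 1 0 := by
    have := hC 1 0
    rwa [Matrix.one_apply_ne (by decide), sub_zero] at this
  have hd1 : A.1 0 0 * A.1 1 1 - A.1 0 1 * A.1 1 0 = 1 := by
    rw [Matrix.det_fin_three] at hdet
    rw [e02, e12, e20, e21, e22] at hdet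
    linarith
  have V : Val (8 * n0) (A.1 0 0) (A.1 0 1) (A.1 1 0) (A.1 1 1) := ⟨hd1, c00, c01, c10, c11⟩
  have hA1 : A = bm (A.1 0 0) (A.1 0 1) (A.1 1 0) (A.1 1 1) hd1 := by
    refine sl_ext _ _ ?_
    rw [bm_val]
    ext i j
    fin_cases i <;> fin_cases j <;> simp [e02, e12, e20, e21, e22]
  have hcop : IsCoprime (A.1 0 0) (A.1 0 1) := ⟨A.1 1 1, -A.1 1 0, by linear_combination hd1⟩
  have h1 := key (A.1 0 0) (A.1 0 1) hcop c00 c01
  rw [ff_eq hp V, ← hA1] at h1
  exact (QuotientGroup.eq_one_iff _).mp h1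

end Pool.Agent.TH610.CSP
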